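import Mathlib
import Pool.Agent.Work.MP_f418a9_al.LieCo

namespace Pool.Agent.Results.MP_f418a9_al.LieIdealCounterexample

open Pool.Agent.MP_f418a9_al

/-- There is a `ℤ`-Lie algebra of rank twelve whose ideal zeta function is uniform, while its
cotype ideal zeta function is not uniform. -/
theorem result : ∃ c : StructureConstants 12, IsLieAlg c ∧
    IsUniform (σ := Unit) (fun p _ => zetaIdx p (IsIdeal2 p c)) ∧
      ¬ IsUniform (σ := Fin 12) (fun p _ => zetaCo p (IsIdeal2 p c)) :=
  ⟨cLie, isLieAlg_cLie, uniform_zetaIdx_cLie, not_uniform_zetaCo_cLie⟩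

end Pool.Agent.Results.MP_f418a9_al.LieIdealCounterexample
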