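import Mathlib
import Pool.Agent.Work.MP_f418a9_al.NF.Final

open scoped NumberField

namespace Pool.Agent.Results.MP_f418a9_al.LieIdealNonUniform

open Pool.Agent.MP_f418a9_al.NF

/-- There is a Lie algebra over the Gaussian integers (the ring of integers of the fourth
cyclotomic field) whose ideal zeta function is uniform (and also finitely uniform), while its
cotype ideal zeta function is neither uniform nor finitely uniform. -/
theorem result :
    ∃ (d : ℕ) (c : StructureConstants (CyclotomicField 4 ℚ) d), IsLieAlg c ∧
      IsUniform (fun v => zetaIdx v (IsIdeal2 v c)) ∧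
      IsFinitelyUniform (fun v => zetaIdx v (IsIdeal2 v c)) ∧
      ¬ IsUniform (fun v => zetaCo v (IsIdeal2 v c)) ∧
      ¬ IsFinitelyUniform (fun v => zetaCo v (IsIdeal2 v c)) :=
  final

end Pool.Agent.Results.MP_f418a9_al.LieIdealNonUniform
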