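import Mathlib
import Pool.Agent.Work.MP_f418a9_al.MainOne

namespace Pool.Agent.Results.MP_f418a9_al.SubalgebraCounterexample

open Pool.Agent.MP_f418a9_al

/-- There is a `ℤ`-algebra of rank three whose zeta function counting subalgebras of finite index
is uniform, while its cotype zeta function is not uniform. -/
theorem result : ∃ c : StructureConstants 3,
    IsUniform (σ := Unit) (fun p _ => zetaIdx p (IsSubalg p c)) ∧
      ¬ IsUniform (σ := Fin 3) (fun p _ => zetaCo p (IsSubalg p c)) :=
  ⟨cOne, uniform_zetaIdx_cOne, not_uniform_zetaCo_cOne⟩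

end Pool.Agent.Results.MP_f418a9_al.SubalgebraCounterexample
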